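import Pool.Agent.H93.CP.Targets

/-!
# Row HNA of the board cpt_modules: `HC K G` is non-archimedean
-/

set_option autoImplicit false

open Set Filter Topology Pool.Agent.H93.CP

namespace Pool.Agent.H4.CPT

section

variable {K G : Type} [TopologicalSpace K] [TopologicalSpace G]

lemma hna_emb : Continuous (fun a : HC K G =>
    ((⟨a.h, a.h.continuous⟩ : C(K, K)), (⟨a.h.symm, a.h.symm.continuous⟩ : C(K, K)), a.c)) :=
  continuous_induced_dom

lemma hna_h : Continuous (fun a : HC K G => (⟨a.h, a.h.continuous⟩ : C(K, K))) :=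
  continuous_fst.comp hna_emb

lemma hna_c : Continuous (fun a : HC K G => a.c) :=
  continuous_snd.comp (continuous_snd.comp hna_emb)

variable [Group G] [IsTopologicalGroup G]

/-- The filter of the sets which contain an open subgroup. -/
def hnaF (K G : Type) [TopologicalSpace K] [TopologicalSpace G] [Group G]
    [IsTopologicalGroup G] : Filter (HC K G) where
  sets := {N | ∃ V : Subgroup (HC K G), IsOpen (V : Set (HC K G)) ∧ (V : Set (HC K G)) ⊆ N}
  univ_sets := ⟨⊤, by simp, subset_univ _⟩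
  sets_of_superset := by
    rintro x y ⟨V, hV, hx⟩ hxy
    exact ⟨V, hV, hx.trans hxy⟩
  inter_sets := by
    rintro x y ⟨V, hV, hx⟩ ⟨W, hW, hy⟩
    refine ⟨V ⊓ W, ?_, ?_⟩
    · rw [Subgroup.coe_inf]
      exact hV.inter hW
    · rw [Subgroup.coe_inf]
      exact inter_subset_inter hx hy

/-- The subgroup of the elements which preserve `A`. -/
def hnaA (K G : Type) [TopologicalSpace K] [TopologicalSpace G] [Group G]
    [IsTopologicalGroup G] (A : Set K) : Subgroup (HC K G) where
  carrier := {a | ∀ y, a.h y ∈ A ↔ y ∈ A}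
  mul_mem' := by
    intro a b ha hb y
    rw [HC.mul_h]
    exact (ha _).trans (hb _)
  one_mem' := fun y => Iff.rfl
  inv_mem' := by
    intro a ha y
    have h := ha (a.h.symm y)
    rw [Homeomorph.apply_symm_apply] at h
    rw [HC.inv_h]
    exact h.symm

lemma hnaA_mem (A : Set K) (a : HC K G) : a ∈ hnaA K G A ↔ ∀ y, a.h y ∈ A ↔ y ∈ A := Iff.rfl

/-- The subgroup of the elements with `c` in `V`. -/
def hnaC (K G : Type) [TopologicalSpace K] [TopologicalSpace G] [Group G]
    [IsTopologicalGroup G] (V : Subgroup G) : Subgroup (HC K G) where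
  carrier := {a | ∀ y, a.c y ∈ V}
  mul_mem' := by
    intro a b ha hb y
    rw [HC.mul_c]
    exact V.mul_mem (ha _) (hb _)
  one_mem' := fun y => V.one_mem
  inv_mem' := by
    intro a ha y
    rw [HC.inv_c]
    exact V.inv_mem (ha _)

lemma hnaC_mem (V : Subgroup G) (a : HC K G) : a ∈ hnaC K G V ↔ ∀ y, a.c y ∈ V := Iff.rfl

lemma hnaA_open [CompactSpace K] (A : Set K) (hA : IsClopen A) :
    IsOpen (hnaA K G A : Set (HC K G)) := by
  have h1 : IsOpen {f : C(K, K) | MapsTo f A A} :=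
    ContinuousMap.isOpen_setOfPred_mapsTo hA.isClosed.isCompact hA.isOpen
  have h2 : IsOpen {f : C(K, K) | MapsTo f Aᶜ Aᶜ} :=
    ContinuousMap.isOpen_setOfPred_mapsTo hA.isOpen.isClosed_compl.isCompact
      hA.isClosed.isOpen_compl
  have h3 := (h1.inter h2).preimage (hna_h (K := K) (G := G))
  have h4 : (hnaA K G A : Set (HC K G)) =
      (fun a : HC K G => (⟨a.h, a.h.continuous⟩ : C(K, K))) ⁻¹'
        ({f : C(K, K) | MapsTo f A A} ∩ {f : C(K, K) | MapsTo f Aᶜ Aᶜ}) := by
    ext a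
    constructor
    · intro ha
      exact ⟨fun y hy => ((hnaA_mem A a).1 ha y).2 hy,
        fun y hy h => hy (((hnaA_mem A a).1 ha y).1 h)⟩
    · rintro ⟨ha, hb⟩
      refine (hnaA_mem A a).2 fun y => ⟨fun h => ?_, fun h => ha h⟩
      by_contra hy
      exact hb hy h
  rw [h4]
  exact h3

lemma hnaC_open [CompactSpace K] (V : Subgroup G) (hV : IsOpen (V : Set G)) :
    IsOpen (hnaC K G V : Set (HC K G)) := by
  have h1 : IsOpen {f : C(K, G) | MapsTo f univ (V : Set G)} :=
    ContinuousMap.isOpen_setOfPred_mapsTo isCompact_univ hV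
  have h3 := h1.preimage (hna_c (K := K) (G := G))
  have h4 : (hnaC K G V : Set (HC K G)) =
      (fun a : HC K G => a.c) ⁻¹' {f : C(K, G) | MapsTo f univ (V : Set G)} := by
    ext a
    constructor
    · intro ha y _
      exact (hnaC_mem V a).1 ha y
    · intro ha
      exact (hnaC_mem V a).2 fun y => ha (mem_univ y)
  rw [h4]
  exact h3

lemma hna_main [CompactSpace K] [T2Space K] [TotallyDisconnectedSpace K] (hG : NonArch G) :
    Tendsto (fun a : HC K G =>
    ((⟨a.h, a.h.continuous⟩ : C(K, K)), (⟨a.h.symm, a.h.symm.continuous⟩ : C(K, K)), a.c))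
    (hnaF K G) (𝓝 ((⟨(1 : HC K G).h, (1 : HC K G).h.continuous⟩ : C(K, K)),
      (⟨(1 : HC K G).h.symm, (1 : HC K G).h.symm.continuous⟩ : C(K, K)), (1 : HC K G).c)) := by
  rw [nhds_prod_eq, nhds_prod_eq]
  refine Tendsto.prodMk ?_ (Tendsto.prodMk ?_ ?_)
  · rw [ContinuousMap.tendsto_nhds_compactOpen]
    intro Q hQ U hU hm
    have hm' : Q ⊆ U := fun y hy => hm hy
    obtain ⟨A, hA, hQA, hAU⟩ := exists_clopen_of_closed_subset_open hQ.isClosed hU hm'
    refine ⟨hnaA K G A, hnaA_open A hA, ?_⟩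
    intro a ha y hy
    exact hAU (((hnaA_mem A a).1 ha y).2 (hQA hy))
  · rw [ContinuousMap.tendsto_nhds_compactOpen]
    intro Q hQ U hU hm
    have hm' : Q ⊆ U := fun y hy => hm hy
    obtain ⟨A, hA, hQA, hAU⟩ := exists_clopen_of_closed_subset_open hQ.isClosed hU hm'
    refine ⟨hnaA K G A, hnaA_open A hA, ?_⟩
    intro a ha y hy
    have h := ((hnaA_mem A a).1 ha (a.h.symm y))
    rw [Homeomorph.apply_symm_apply] at h
    exact hAU (h.1 (hQA hy))
  · rw [ContinuousMap.tendsto_nhds_compactOpen]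
    intro Q hQ U hU hm
    rcases Q.eq_empty_or_nonempty with h0 | ⟨y0, hy0⟩
    · refine Filter.Eventually.of_forall ?_
      intro a
      rw [h0]
      exact mapsTo_empty _ _
    · have h1 : (1 : G) ∈ U := hm hy0
      obtain ⟨V, hV, hVU⟩ := hG U (hU.mem_nhds h1)
      refine ⟨hnaC K G V, hnaC_open V hV, ?_⟩
      intro a ha y hy
      exact hVU ((hnaC_mem V a).1 ha y)

end

theorem pf_HNA : T_HNA := by
  intro K G _ _ _ _ _ _ _ hG U hU
  have h1 : 𝓝 (1 : HC K G) = comap (fun a : HC K G =>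
    ((⟨a.h, a.h.continuous⟩ : C(K, K)), (⟨a.h.symm, a.h.symm.continuous⟩ : C(K, K)), a.c))
    (𝓝 ((⟨(1 : HC K G).h, (1 : HC K G).h.continuous⟩ : C(K, K)),
      (⟨(1 : HC K G).h.symm, (1 : HC K G).h.symm.continuous⟩ : C(K, K)), (1 : HC K G).c)) :=
    nhds_induced _ _
  have h2 : hnaF K G ≤ 𝓝 (1 : HC K G) := by
    rw [h1]
    exact (hna_main hG).le_comap
  exact h2 hU

end Pool.Agent.H4.CPT
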