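import Pool.Agent.H93.CP.Targets

/-!
# Row HTG of the board cpt_modules: `HC K G` is a topological group which acts continuously
-/

set_option autoImplicit false

open Set Filter Topology Pool.Agent.H93.CP

namespace Pool.Agent.H4.CPT

section

variable {K G : Type} [TopologicalSpace K] [TopologicalSpace G]

lemma htg_emb : Continuous (fun a : HC K G =>
    ((⟨a.h, a.h.continuous⟩ : C(K, K)), (⟨a.h.symm, a.h.symm.continuous⟩ : C(K, K)), a.c)) :=
  continuous_induced_dom

lemma htg_h : Continuous (fun a : HC K G => (⟨a.h, a.h.continuous⟩ : C(K, K))) :=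
  continuous_fst.comp htg_emb

lemma htg_s : Continuous (fun a : HC K G => (⟨a.h.symm, a.h.symm.continuous⟩ : C(K, K))) :=
  continuous_fst.comp (continuous_snd.comp htg_emb)

lemma htg_c : Continuous (fun a : HC K G => a.c) :=
  continuous_snd.comp (continuous_snd.comp htg_emb)

end

theorem pf_HTG : T_HTG := by
  intro K G _ _ _ _ _ _
  have hmul : Continuous (fun p : HC K G × HC K G => p.1 * p.2) := by
    refine continuous_induced_rng.2 ?_
    refine Continuous.prodMk ?_ (Continuous.prodMk ?_ ?_)
    · exact ContinuousMap.continuous_comp'.comp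
        ((htg_h.comp continuous_snd).prodMk (htg_h.comp continuous_fst))
    · exact ContinuousMap.continuous_comp'.comp
        ((htg_s.comp continuous_fst).prodMk (htg_s.comp continuous_snd))
    · have h1 : Continuous (fun p : HC K G × HC K G =>
          p.1.c.comp (⟨p.2.h, p.2.h.continuous⟩ : C(K, K))) :=
        ContinuousMap.continuous_comp'.comp
          ((htg_h.comp continuous_snd).prodMk (htg_c.comp continuous_fst))
      exact h1.mul (htg_c.comp continuous_snd)
  have hinv : Continuous (fun p : HC K G => p⁻¹) := by
    refine continuous_induced_rng.2 ?_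
    refine Continuous.prodMk ?_ (Continuous.prodMk ?_ ?_)
    · exact htg_s
    · exact htg_h
    · have h1 : Continuous (fun p : HC K G =>
          p.c.comp (⟨p.h.symm, p.h.symm.continuous⟩ : C(K, K))) :=
        ContinuousMap.continuous_comp'.comp (htg_s.prodMk htg_c)
      exact (ContinuousMap.continuous_postcomp (⟨fun g : G => g⁻¹, continuous_inv⟩ : C(G, G))).comp h1
  refine ⟨{ continuous_mul := hmul, continuous_inv := hinv }, ?_, ?_⟩
  · exact ContinuousEval.continuous_eval.comp ((htg_h.comp continuous_fst).prodMk continuous_snd)
  · intro y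
    exact (ContinuousEvalConst.continuous_eval_const y).comp htg_c

end Pool.Agent.H4.CPT
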