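import Pool.Agent.H93.CP.Targets2

/-!
# Row NCA of the board cpt_modules: closed subgroups of the homeomorphism group of the Cantor space
-/

set_option autoImplicit false

open Set Filter Topology Pool.Agent.H93.CP

namespace Pool.Agent.H4.CPT.NCA

/-- the group of homeomorphisms of the Cantor space -/
abbrev Lam : Type := HC (ℕ → Bool) Unit

section

variable {Y Γ : Type} [TopologicalSpace Y] [TopologicalSpace Γ] [Group Γ] [MulAction Γ Y]

lemma cont_smul (hc : Continuous (fun p : Γ × Y => p.1 • p.2)) (g : Γ) :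
    Continuous (fun y : Y => g • y) :=
  hc.comp (continuous_const.prodMk continuous_id)

/-- the homeomorphism of a pair -/
def ncaH (e : Y × (ℕ → Bool) ≃ₜ (ℕ → Bool)) (hc : Continuous (fun p : Γ × Y => p.1 • p.2))
    (d : Γ × Lam) : (ℕ → Bool) ≃ₜ (ℕ → Bool) where
  toFun x := e (d.1 • (e.symm x).1, d.2.h (e.symm x).2)
  invFun x := e (d.1⁻¹ • (e.symm x).1, d.2.h.symm (e.symm x).2)
  left_inv x := by simp
  right_inv x := by simp
  continuous_toFun := by
    refine e.continuous.comp (Continuous.prodMk ?_ ?_)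
    · exact (cont_smul hc d.1).comp (continuous_fst.comp e.symm.continuous)
    · exact d.2.h.continuous.comp (continuous_snd.comp e.symm.continuous)
  continuous_invFun := by
    refine e.continuous.comp (Continuous.prodMk ?_ ?_)
    · exact (cont_smul hc d.1⁻¹).comp (continuous_fst.comp e.symm.continuous)
    · exact d.2.h.symm.continuous.comp (continuous_snd.comp e.symm.continuous)

lemma ncaH_apply (e : Y × (ℕ → Bool) ≃ₜ (ℕ → Bool))
    (hc : Continuous (fun p : Γ × Y => p.1 • p.2)) (d : Γ × Lam) (x : ℕ → Bool) :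
    ncaH e hc d x = e (d.1 • (e.symm x).1, d.2.h (e.symm x).2) := rfl

lemma ncaH_symm_apply (e : Y × (ℕ → Bool) ≃ₜ (ℕ → Bool))
    (hc : Continuous (fun p : Γ × Y => p.1 • p.2)) (d : Γ × Lam) (x : ℕ → Bool) :
    (ncaH e hc d).symm x = e (d.1⁻¹ • (e.symm x).1, d.2.h.symm (e.symm x).2) := rfl

/-- the homomorphism -/
def ncaP (e : Y × (ℕ → Bool) ≃ₜ (ℕ → Bool)) (hc : Continuous (fun p : Γ × Y => p.1 • p.2)) :
    Γ × Lam →* Lam :=
  MonoidHom.mk' (fun d => (⟨ncaH e hc d, 1⟩ : Lam)) (by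
    intro a b
    refine HC.ext ?_ (by ext)
    refine Homeomorph.ext fun x => ?_
    rw [HC.mul_h]
    change ncaH e hc (a * b) x = ncaH e hc a (ncaH e hc b x)
    rw [ncaH_apply, ncaH_apply, ncaH_apply, Homeomorph.symm_apply_apply]
    rw [Prod.fst_mul, Prod.snd_mul, mul_smul, HC.mul_h])

lemma ncaP_h (e : Y × (ℕ → Bool) ≃ₜ (ℕ → Bool))
    (hc : Continuous (fun p : Γ × Y => p.1 • p.2)) (d : Γ × Lam) :
    (ncaP e hc d).h = ncaH e hc d := rfl

lemma ncaP_apply (e : Y × (ℕ → Bool) ≃ₜ (ℕ → Bool))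
    (hc : Continuous (fun p : Γ × Y => p.1 • p.2)) (d : Γ × Lam) (x : ℕ → Bool) :
    (ncaP e hc d).h x = e (d.1 • (e.symm x).1, d.2.h (e.symm x).2) := rfl

/-- the orbits -/
lemma nca_orb (hXOR : T_XOR) (e : Y × (ℕ → Bool) ≃ₜ (ℕ → Bool))
    (hc : Continuous (fun p : Γ × Y => p.1 • p.2)) (x x' : ℕ → Bool) :
    (∃ d : (ncaP e hc).range, d • x = x') ↔ ∃ g : Γ, g • (e.symm x).1 = (e.symm x').1 := by
  obtain ⟨τ, -, hτ⟩ := hXOR
  have hτi : ∀ c : ℕ → Bool, ((τ c)⁻¹ : Lam).h c = fun _ => false := by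
    intro c
    rw [HC.inv_h, Homeomorph.symm_apply_eq, hτ]
  constructor
  · rintro ⟨⟨d, ⟨q, rfl⟩⟩, hd⟩
    refine ⟨q.1, ?_⟩
    have h1 : (ncaP e hc q).h x = x' := hd
    rw [ncaP_apply] at h1
    rw [← h1, Homeomorph.symm_apply_apply]
  · rintro ⟨g, hg⟩
    refine ⟨⟨ncaP e hc (g, τ (e.symm x').2 * (τ (e.symm x).2)⁻¹), ⟨_, rfl⟩⟩, ?_⟩
    change (ncaP e hc (g, τ (e.symm x').2 * (τ (e.symm x).2)⁻¹)).h x = x'
    rw [ncaP_apply, HC.mul_h, hτi, hτ]
    change e (g • (e.symm x).1, (e.symm x').2) = x'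
    rw [hg, Prod.mk.eta, Homeomorph.apply_symm_apply]

variable [IsTopologicalGroup Γ]

lemma nca_cont (hHTG : T_HTG) (hHCO : T_HCO) (e : Y × (ℕ → Bool) ≃ₜ (ℕ → Bool))
    (hc : Continuous (fun p : Γ × Y => p.1 • p.2)) : Continuous (ncaP e hc) := by
  obtain ⟨hTG, hact, -⟩ := hHTG (ℕ → Bool) Unit
  have hL : Continuous (fun p : Lam => p⁻¹) := continuous_inv
  refine hHCO (Γ × Lam) (ℕ → Bool) Unit (ncaP e hc) ?_ ?_ ?_
  · change Continuous (fun p : (Γ × Lam) × (ℕ → Bool) =>
      e (p.1.1 • (e.symm p.2).1, p.1.2.h (e.symm p.2).2))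
    refine e.continuous.comp (Continuous.prodMk ?_ ?_)
    · exact hc.comp ((continuous_fst.comp continuous_fst).prodMk
        (continuous_fst.comp (e.symm.continuous.comp continuous_snd)))
    · exact hact.comp ((continuous_snd.comp continuous_fst).prodMk
        (continuous_snd.comp (e.symm.continuous.comp continuous_snd)))
  · change Continuous (fun p : (Γ × Lam) × (ℕ → Bool) =>
      e (p.1.1⁻¹ • (e.symm p.2).1, (p.1.2⁻¹ : Lam).h (e.symm p.2).2))
    refine e.continuous.comp (Continuous.prodMk ?_ ?_)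
    · exact hc.comp ((continuous_inv.comp (continuous_fst.comp continuous_fst)).prodMk
        (continuous_fst.comp (e.symm.continuous.comp continuous_snd)))
    · exact hact.comp ((hL.comp (continuous_snd.comp continuous_fst)).prodMk
        (continuous_snd.comp (e.symm.continuous.comp continuous_snd)))
  · exact continuous_const

lemma nca_emb : Continuous (fun a : Lam => ((⟨a.h, a.h.continuous⟩ : C(ℕ → Bool, ℕ → Bool)),
    (⟨a.h.symm, a.h.symm.continuous⟩ : C(ℕ → Bool, ℕ → Bool)), a.c)) :=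
  continuous_induced_dom

lemma nca_h : Continuous (fun a : Lam => (⟨a.h, a.h.continuous⟩ : C(ℕ → Bool, ℕ → Bool))) :=
  continuous_fst.comp nca_emb

lemma nca_s : Continuous (fun a : Lam =>
    (⟨a.h.symm, a.h.symm.continuous⟩ : C(ℕ → Bool, ℕ → Bool))) :=
  continuous_fst.comp (continuous_snd.comp nca_emb)

/-- the map is inducing -/
lemma nca_ind (hHTG : T_HTG) (hHCO : T_HCO) (e : Y × (ℕ → Bool) ≃ₜ (ℕ → Bool))
    (hc : Continuous (fun p : Γ × Y => p.1 • p.2)) (y0 : Y)
    (hV : ∀ V ∈ 𝓝 (1 : Γ), ∃ z : Y, IsClopen ({z} : Set Y) ∧ ∀ γ : Γ, γ • z = z → γ ∈ V) :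
    IsInducing (ncaP e hc) := by
  have hTG : IsTopologicalGroup Lam := (hHTG (ℕ → Bool) Unit).1
  have hcont := nca_cont hHTG hHCO e hc
  have h1 : 𝓝 (1 : Γ × Lam) = comap (ncaP e hc) (𝓝 1) := by
    refine le_antisymm ?_ ?_
    · rw [← tendsto_iff_comap]
      have := hcont.tendsto (1 : Γ × Lam)
      rwa [map_one] at this
    · have hd : Tendsto (ncaP e hc) (comap (ncaP e hc) (𝓝 1)) (𝓝 1) := tendsto_comap
      have ha : Tendsto Prod.fst (comap (ncaP e hc) (𝓝 1)) (𝓝 (1 : Γ)) := by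
        intro V hVn
        obtain ⟨z, hz, hst⟩ := hV V hVn
        have hE : IsClopen (e '' (({z} : Set Y) ×ˢ (univ : Set (ℕ → Bool)))) :=
          ⟨e.isClosedMap _ (hz.prod isClopen_univ).1, e.isOpenMap _ (hz.prod isClopen_univ).2⟩
        have hO : IsOpen {f : C(ℕ → Bool, ℕ → Bool) |
            MapsTo f (e '' (({z} : Set Y) ×ˢ (univ : Set (ℕ → Bool))))
              (e '' (({z} : Set Y) ×ˢ (univ : Set (ℕ → Bool))))} :=
          ContinuousMap.isOpen_setOfPred_mapsTo hE.isClosed.isCompact hE.isOpen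
        have hN := (hO.preimage nca_h).mem_nhds (x := (1 : Lam)) (by
          intro x hx
          exact hx)
        rw [mem_map]
        refine mem_of_superset (preimage_mem_comap hN) ?_
        intro q hq
        have hq' : MapsTo (ncaP e hc q).h (e '' (({z} : Set Y) ×ˢ (univ : Set (ℕ → Bool))))
              (e '' (({z} : Set Y) ×ˢ (univ : Set (ℕ → Bool)))) := hq
        have h2 := hq' (mem_image_of_mem e (mk_mem_prod (mem_singleton z)
          (mem_univ (fun _ => false))))
        rw [ncaP_apply, Homeomorph.symm_apply_apply] at h2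
        obtain ⟨⟨z', c⟩, ⟨hz', -⟩, h3⟩ := h2
        have h4 := e.injective h3
        have h5 : z' = q.1 • z := congrArg Prod.fst h4
        rw [mem_singleton_iff] at hz'
        have h6 : z' = z := hz'
        exact hst q.1 (h5.symm.trans h6)
      have hb : ∀ F : Filter (Γ × Lam), Tendsto (ncaP e hc) F (𝓝 1) →
          Tendsto Prod.snd F (𝓝 (1 : Lam)) := by
        intro F hd
        have hind : 𝓝 (1 : Lam) = comap (fun a : Lam =>
            ((⟨a.h, a.h.continuous⟩ : C(ℕ → Bool, ℕ → Bool)),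
            (⟨a.h.symm, a.h.symm.continuous⟩ : C(ℕ → Bool, ℕ → Bool)), a.c))
            (𝓝 ((⟨(1 : Lam).h, (1 : Lam).h.continuous⟩ : C(ℕ → Bool, ℕ → Bool)),
            (⟨(1 : Lam).h.symm, (1 : Lam).h.symm.continuous⟩ : C(ℕ → Bool, ℕ → Bool)),
            (1 : Lam).c)) := nhds_induced _ _
        rw [hind, tendsto_comap_iff, nhds_prod_eq, nhds_prod_eq]
        let s1 : C(ℕ → Bool, ℕ → Bool) := ContinuousMap.mk (fun x => (e.symm x).2)
          (continuous_snd.comp e.symm.continuous)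
        let s2 : C(ℕ → Bool, ℕ → Bool) := ContinuousMap.mk (fun x => e (y0, x))
          (e.continuous.comp (continuous_const.prodMk continuous_id))
        let Ψ : C(ℕ → Bool, ℕ → Bool) → C(ℕ → Bool, ℕ → Bool) := fun u => s1.comp (u.comp s2)
        have hΨ : Continuous Ψ :=
          (ContinuousMap.continuous_postcomp s1).comp (ContinuousMap.continuous_precomp s2)
        refine Tendsto.prodMk ?_ (Tendsto.prodMk ?_ ?_)
        · have t1 := ((hΨ.comp nca_h).tendsto (1 : Lam)).comp hd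
          have t2 : (Ψ ∘ (fun a : Lam => (⟨a.h, a.h.continuous⟩ : C(ℕ → Bool, ℕ → Bool))))
              (1 : Lam) = (⟨(1 : Lam).h, (1 : Lam).h.continuous⟩ : C(ℕ → Bool, ℕ → Bool)) := by
            ext1 x
            change (e.symm ((1 : Lam).h (e (y0, x)))).2 = (1 : Lam).h x
            rw [HC.one_h, HC.one_h, Homeomorph.symm_apply_apply]
          rw [t2] at t1
          refine t1.congr fun q => ?_
          ext1 x
          change (e.symm ((ncaP e hc q).h (e (y0, x)))).2 = q.2.h x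
          rw [ncaP_apply, Homeomorph.symm_apply_apply, Homeomorph.symm_apply_apply]
        · have t1 := ((hΨ.comp nca_s).tendsto (1 : Lam)).comp hd
          have t2 : (Ψ ∘ (fun a : Lam =>
              (⟨a.h.symm, a.h.symm.continuous⟩ : C(ℕ → Bool, ℕ → Bool)))) (1 : Lam) =
              (⟨(1 : Lam).h.symm, (1 : Lam).h.symm.continuous⟩ : C(ℕ → Bool, ℕ → Bool)) := by
            ext1 x
            change (e.symm ((1 : Lam).h.symm (e (y0, x)))).2 = (1 : Lam).h.symm x
            have k1 : ∀ y : ℕ → Bool, (1 : Lam).h.symm y = y := fun y => rfl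
            rw [k1, k1, Homeomorph.symm_apply_apply]
          rw [t2] at t1
          refine t1.congr fun q => ?_
          ext1 x
          change (e.symm ((ncaP e hc q).h.symm (e (y0, x)))).2 = q.2.h.symm x
          rw [ncaP_h, ncaH_symm_apply, Homeomorph.symm_apply_apply, Homeomorph.symm_apply_apply]
        · have t3 : ∀ q : Γ × Lam, q.2.c = (1 : Lam).c := fun q => by ext
          refine (tendsto_const_nhds (x := (1 : Lam).c)).congr fun q => ?_
          exact (t3 q).symm
      have h2 : 𝓝 (1 : Γ × Lam) = 𝓝 (1 : Γ) ×ˢ 𝓝 (1 : Lam) := nhds_prod_eq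
      rw [h2]
      exact (tendsto_id'.1 (ha.prodMk (hb _ hd)))
  rw [isInducing_iff_nhds]
  intro x
  rw [← nhds_translation_mul_inv x, ← nhds_translation_mul_inv (ncaP e hc x), h1, comap_comap,
    comap_comap]
  congr 1
  funext q
  change ncaP e hc (q * x⁻¹) = ncaP e hc q * (ncaP e hc x)⁻¹
  rw [map_mul, map_inv]

end

theorem pf_NCA (hEMB : T_EMB) (hPCL : T_PCL) (hBRO : T_BRO) (hHTG : T_HTG) (hHPO : T_HPO)
    (hHCO : T_HCO) (hXOR : T_XOR) (hRMC : T_RMC) : T_NCA := by
  intro K Γ _ _ _ _ _ _ _ _ _ _ _ _ _ hcK hna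
  obtain ⟨Z, _, _, _, _, _, _, _, hcZ, hZ⟩ := hEMB Γ hna
  have hTG : IsTopologicalGroup Lam := (hHTG (ℕ → Bool) Unit).1
  have hPol : PolishSpace Lam := hHPO (ℕ → Bool) Unit
  obtain ⟨e⟩ := hBRO (K ⊕ Z)
  have hc : Continuous (fun p : Γ × (K ⊕ Z) => p.1 • p.2) := by
    have h1 : Continuous (Sum.elim (fun p : Γ × K => (Sum.inl (p.1 • p.2) : K ⊕ Z))
        (fun p : Γ × Z => (Sum.inr (p.1 • p.2) : K ⊕ Z))) :=
      continuous_sumElim.2 ⟨continuous_inl.comp hcK, continuous_inr.comp hcZ⟩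
    have h2 := h1.comp (Homeomorph.prodSumDistrib (X := Γ) (Y := K) (Z := Z)).continuous
    refine h2.congr ?_
    rintro ⟨g, y | z⟩
    · rfl
    · rfl
  obtain ⟨k0⟩ := (inferInstance : Nonempty K)
  have hV : ∀ V ∈ 𝓝 (1 : Γ), ∃ z : K ⊕ Z, IsClopen ({z} : Set (K ⊕ Z)) ∧
      ∀ γ : Γ, γ • z = z → γ ∈ V := by
    intro V hV
    obtain ⟨z, hz, hst⟩ := hZ V hV
    refine ⟨Sum.inr z, ⟨isClosed_singleton, ?_⟩, ?_⟩
    · have := isOpenMap_inr (X := K) {z} hz
      rwa [image_singleton] at this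
    · intro γ hγ
      refine hst γ ?_
      have h2 : (Sum.inr (γ • z) : K ⊕ Z) = Sum.inr z := hγ
      exact Sum.inr.inj h2
  have hind := nca_ind hHTG hHCO e hc (Sum.inl k0) hV
  have hinj : Function.Injective (ncaP e hc) := hind.injective
  refine ⟨(ncaP e hc).range, hPCL (Γ × Lam) Lam (ncaP e hc) hind hinj, ?_, ?_⟩
  · constructor
    · rintro ⟨A, hA, hAx⟩
      refine ⟨Sum.inl ⁻¹' ((fun x => (e.symm x).1) '' A),
        (hA.image _).preimage Sum.inl_injective, fun y => ?_⟩
      obtain ⟨d, hd⟩ := hAx (e (Sum.inl y, fun _ => false))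
      obtain ⟨g, hg⟩ := (nca_orb hXOR e hc (e (Sum.inl y, fun _ => false)) _).1 ⟨d, rfl⟩
      rw [Homeomorph.symm_apply_apply] at hg
      refine ⟨g, _, hd, ?_⟩
      exact hg.symm
    · rintro ⟨A, hA, hAy⟩
      refine ⟨((fun y => e (Sum.inl y, fun _ => false)) '' A) ∪
        ((fun z : Z => e (Sum.inr z, fun _ => false)) '' univ),
        (hA.image _).union ((to_countable univ).image _), fun x => ?_⟩
      rcases hx : (e.symm x).1 with y | z
      · obtain ⟨g, hg⟩ := hAy y
        obtain ⟨d, hd⟩ := (nca_orb hXOR e hc x (e (Sum.inl (g • y), fun _ => false))).2 ⟨g, by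
          rw [hx, Homeomorph.symm_apply_apply]
          rfl⟩
        exact ⟨d, Or.inl ⟨g • y, hg, hd.symm⟩⟩
      · obtain ⟨d, hd⟩ := (nca_orb hXOR e hc x (e (Sum.inr z, fun _ => false))).2 ⟨1, by
          rw [hx, Homeomorph.symm_apply_apply, one_smul]⟩
        exact ⟨d, Or.inr ⟨z, mem_univ z, hd.symm⟩⟩
  · constructor
    · rintro ⟨f, hf, hfu⟩
      have hcount : {u : ℕ → Bool | ∃ z : Z, (e.symm (f u)).1 = Sum.inr z}.Countable := by
        have h1 : {u : ℕ → Bool | ∃ z : Z, (e.symm (f u)).1 = Sum.inr z} =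
            ⋃ z : Z, {u : ℕ → Bool | (e.symm (f u)).1 = Sum.inr z} := by
          ext u
          rw [mem_iUnion]
          exact Iff.rfl
        rw [h1]
        refine countable_iUnion fun z => Set.Subsingleton.countable ?_
        intro u hu v hv
        by_contra huv
        have hu' : (e.symm (f u)).1 = Sum.inr z := hu
        have hv' : (e.symm (f v)).1 = Sum.inr z := hv
        obtain ⟨d, hd⟩ := (nca_orb hXOR e hc (f u) (f v)).2 ⟨1, by rw [one_smul, hu', hv']⟩
        exact hfu u v huv d hd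
      obtain ⟨j, hjc, hji, hjn⟩ := hRMC _ hcount
      let kp : K ⊕ Z → K := Sum.elim (fun y => y) (fun _ => k0)
      have hkp : Continuous kp := continuous_sumElim.2 ⟨continuous_id, continuous_const⟩
      have hk : ∀ u, (e.symm (f (j u))).1 = Sum.inl (kp (e.symm (f (j u))).1) := by
        intro u
        rcases hx : (e.symm (f (j u))).1 with y | z
        · rfl
        · exact absurd ⟨z, hx⟩ (hjn u)
      refine ⟨fun u => kp (e.symm (f (j u))).1, ?_, ?_⟩
      · have hk1 : Continuous (fun x : ℕ → Bool => kp (e.symm x).1) :=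
          hkp.comp (continuous_fst.comp e.symm.continuous)
        exact hk1.measurable.comp (hf.comp hjc.measurable)
      · intro u v huv g hg
        have hg' : g • kp (e.symm (f (j u))).1 = kp (e.symm (f (j v))).1 := hg
        obtain ⟨d, hd⟩ := (nca_orb hXOR e hc (f (j u)) (f (j v))).2 ⟨g, by
          rw [hk u, hk v, ← hg']
          rfl⟩
        exact hfu (j u) (j v) (fun h => huv (hji h)) d hd
    · rintro ⟨f, hf, hfu⟩
      refine ⟨fun u => e (Sum.inl (f u), fun _ => false), ?_, ?_⟩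
      · have hk1 : Continuous (fun y : K => e (Sum.inl y, fun _ => false)) :=
          e.continuous.comp (continuous_inl.prodMk continuous_const)
        exact hk1.measurable.comp hf
      · intro u v huv d hd
        obtain ⟨g, hg⟩ := (nca_orb hXOR e hc _ _).1 ⟨d, hd⟩
        rw [Homeomorph.symm_apply_apply, Homeomorph.symm_apply_apply] at hg
        have h2 : (Sum.inl (g • f u) : K ⊕ Z) = Sum.inl (f v) := hg
        exact hfu u v huv g (Sum.inl.inj h2)

end Pool.Agent.H4.CPT.NCA
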